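import Pool.Agent.MP_8b9c46_al.Circle

set_option autoImplicit false

/-!
The groups PSL(2)^(k), PSL(2)^(l) of homeomorphisms of R/Z generate their amalgamated free
product over SO(2): statement on R/Z with real unimodular matrices.
-/

namespace Pool.Agent.Results.MP_8b9c46_al.Amalgam

open Pool.Agent.MP_8b9c46_al ComplexConjugate

/-- The unit vector at angle `π t`. -/
noncomputable def dir (t : ℝ) : Fin 2 → ℝ := ![Real.cos (Real.pi * t), Real.sin (Real.pi * t)]

/-- The matrix `g` maps the line at angle `π x` onto the line at angle `π y`. -/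
def Acts (g : Matrix.SpecialLinearGroup (Fin 2) ℝ) (x y : UnitAddCircle) : Prop :=
  ∃ s t c : ℝ, (s : UnitAddCircle) = x ∧ (t : UnitAddCircle) = y ∧
    (g : Matrix (Fin 2) (Fin 2) ℝ).mulVec (dir s) = c • dir t

theorem dir_ne_zero (t : ℝ) : dir t ≠ 0 := by
  intro h
  have h0 := congrFun h 0
  have h1 := congrFun h 1
  simp only [dir, Matrix.cons_val_zero, Matrix.cons_val_one, Pi.zero_apply] at h0 h1
  have := Real.cos_sq_add_sin_sq (Real.pi * t)
  rw [h0, h1] at this
  norm_num at this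

theorem dir_of_coe_eq {s t : ℝ} (h : (s : UnitAddCircle) = t) : ∃ e : ℝ, dir s = e • dir t := by
  have h1 : ((s - t : ℝ) : UnitAddCircle) = 0 := by rw [AddCircle.coe_sub, h, sub_self]
  obtain ⟨n, hn⟩ := (AddCircle.coe_eq_zero_iff (1 : ℝ)).mp h1
  have hs : Real.pi * s = Real.pi * t + n * Real.pi := by
    have : s = t + n := by
      simp only [zsmul_eq_mul, mul_one] at hn
      linarith
    rw [this]; ring
  refine ⟨(-1) ^ n, ?_⟩
  ext i
  fin_cases i
  · simp [dir, hs, Real.cos_add_int_mul_pi]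
  · simp [dir, hs, Real.sin_add_int_mul_pi]

theorem Acts.one (x : UnitAddCircle) : Acts 1 x x := by
  obtain ⟨s, rfl⟩ := QuotientAddGroup.mk_surjective x
  exact ⟨s, s, 1, rfl, rfl, by simp⟩

theorem Acts.mul {g h : Matrix.SpecialLinearGroup (Fin 2) ℝ} {x y z : UnitAddCircle}
    (h1 : Acts g y z) (h2 : Acts h x y) : Acts (g * h) x z := by
  obtain ⟨s, t, c, hs, ht, hc⟩ := h1
  obtain ⟨s', t', c', hs', ht', hc'⟩ := h2
  obtain ⟨e, he⟩ := dir_of_coe_eq (ht'.trans hs.symm)
  refine ⟨s', t, c' * e * c, hs', ht, ?_⟩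
  rw [Matrix.SpecialLinearGroup.coe_mul, ← Matrix.mulVec_mulVec, hc', he, Matrix.mulVec_smul,
    Matrix.mulVec_smul, hc, smul_smul, smul_smul]

theorem Acts.inv {g : Matrix.SpecialLinearGroup (Fin 2) ℝ} {x y : UnitAddCircle}
    (h1 : Acts g x y) : Acts g⁻¹ y x := by
  obtain ⟨s, t, c, hs, ht, hc⟩ := h1
  have h2 : dir s = c • ((g⁻¹ : Matrix.SpecialLinearGroup (Fin 2) ℝ) :
      Matrix (Fin 2) (Fin 2) ℝ).mulVec (dir t) := by
    rw [← Matrix.mulVec_smul, ← hc, Matrix.mulVec_mulVec, ← Matrix.SpecialLinearGroup.coe_mul,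
      inv_mul_cancel]
    simp
  have hc0 : c ≠ 0 := by
    rintro rfl
    exact dir_ne_zero s (by simpa using h2)
  refine ⟨t, s, c⁻¹, ht, hs, ?_⟩
  rw [h2, smul_smul, inv_mul_cancel₀ hc0, one_smul]

/-- PSL(2)^(k): homeomorphisms `f` of R/Z with `p_k ∘ f = g ∘ p_k` for a projective map `g`. -/
def lifted (k : ℕ) : Subgroup (UnitAddCircle ≃ₜ UnitAddCircle) where
  carrier := {f | ∃ g : Matrix.SpecialLinearGroup (Fin 2) ℝ, ∀ x, Acts g (k • x) (k • f x)}
  one_mem' := ⟨1, fun _ => Acts.one _⟩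
  mul_mem' := by
    rintro f f' ⟨g, hg⟩ ⟨g', hg'⟩
    exact ⟨g * g', fun x => (hg (f' x)).mul (hg' x)⟩
  inv_mem' := by
    rintro f ⟨g, hg⟩
    refine ⟨g⁻¹, fun x => ?_⟩
    have := (hg (f⁻¹ x)).inv
    simpa using this

/-- SO(2): the rotations of R/Z. -/
def rot : Subgroup (UnitAddCircle ≃ₜ UnitAddCircle) where
  carrier := {f | ∃ t : UnitAddCircle, ∀ x, f x = x + t}
  one_mem' := ⟨0, fun _ => by simp⟩
  mul_mem' := by
    rintro f f' ⟨t, ht⟩ ⟨t', ht'⟩
    exact ⟨t' + t, fun x => by simp [ht, ht', add_assoc]⟩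
  inv_mem' := by
    rintro f ⟨t, ht⟩
    refine ⟨-t, fun x => ?_⟩
    have := ht (f⁻¹ x)
    simp only [Homeomorph.inv_apply, Homeomorph.apply_symm_apply] at this ⊢
    rw [eq_add_neg_iff_add_eq, ← this]

theorem rot_le_lifted (k : ℕ) : rot ≤ lifted k := by
  rintro f ⟨t, ht⟩
  obtain ⟨τ, rfl⟩ := QuotientAddGroup.mk_surjective t
  refine ⟨⟨!![Real.cos (Real.pi * (k * τ)), -Real.sin (Real.pi * (k * τ));
    Real.sin (Real.pi * (k * τ)), Real.cos (Real.pi * (k * τ))], ?_⟩, fun x => ?_⟩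
  · rw [Matrix.det_fin_two_of]
    linear_combination Real.cos_sq_add_sin_sq (Real.pi * (k * τ))
  · obtain ⟨s, rfl⟩ := QuotientAddGroup.mk_surjective x
    refine ⟨k * s, k * s + k * τ, 1, ?_, ?_, ?_⟩
    · rw [← nsmul_eq_mul, AddCircle.coe_nsmul]
    · rw [ht, smul_add, AddCircle.coe_add, ← nsmul_eq_mul, ← nsmul_eq_mul, AddCircle.coe_nsmul,
        AddCircle.coe_nsmul]
    · ext i
      fin_cases i
      · simp [dir, Matrix.mulVec, dotProduct, Fin.sum_univ_two, mul_add, Real.cos_add]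
        ring
      · simp [dir, Matrix.mulVec, dotProduct, Fin.sum_univ_two, mul_add, Real.sin_add]
        ring

/-- The inclusions of SO(2) into PSL(2)^(k) (index `true`) and PSL(2)^(l) (index `false`). -/
def incl (k l : ℕ) (i : Bool) : rot →* lifted (cond i k l) :=
  Subgroup.inclusion (rot_le_lifted (cond i k l))

/-- The identification of R/Z with the unit circle. -/
noncomputable def ee : UnitAddCircle ≃ₜ Circle := AddCircle.homeomorphCircle one_ne_zero

theorem ee_coe (s : ℝ) : ((ee (s : UnitAddCircle) : Circle) : ℂ) =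
    ((Real.cos (Real.pi * s) : ℂ) + (Real.sin (Real.pi * s) : ℂ) * Complex.I) ^ 2 := by
  rw [ee, AddCircle.homeomorphCircle_apply, AddCircle.toCircle_apply_mk, Circle.coe_exp,
    Complex.ofReal_cos, Complex.ofReal_sin, ← Complex.exp_mul_I, ← Complex.exp_nat_mul]
  congr 1
  push_cast
  ring

theorem ee_add (x y : UnitAddCircle) : ee (x + y) = ee x * ee y := by
  simp only [ee, AddCircle.homeomorphCircle_apply, AddCircle.toCircle_add]

theorem ee_nsmul (x : UnitAddCircle) (n : ℕ) : ee (n • x) = ee x ^ n := by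
  simp only [ee, AddCircle.homeomorphCircle_apply, AddCircle.toCircle_nsmul]

/-- Transport of homeomorphisms of R/Z to permutations of the unit circle. -/
noncomputable def tr : (UnitAddCircle ≃ₜ UnitAddCircle) →* Equiv.Perm Circle where
  toFun f := (ee.symm.trans (f.trans ee)).toEquiv
  map_one' := by ext z; simp
  map_mul' f g := by ext z; simp

theorem tr_apply (f : UnitAddCircle ≃ₜ UnitAddCircle) (z : Circle) :
    tr f z = ee (f (ee.symm z)) := rfl

theorem Acts.relP {g : Matrix.SpecialLinearGroup (Fin 2) ℝ} {x y : UnitAddCircle}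
    (h : Acts g x y) :
    RelP ((((g.1 0 0 + g.1 1 1) / 2 : ℝ) : ℂ) + (((g.1 1 0 - g.1 0 1) / 2 : ℝ) : ℂ) * Complex.I)
      ((((g.1 0 0 - g.1 1 1) / 2 : ℝ) : ℂ) + (((g.1 1 0 + g.1 0 1) / 2 : ℝ) : ℂ) * Complex.I)
      ((ee x : Circle) : ℂ) ((ee y : Circle) : ℂ) := by
  obtain ⟨s, t, c, rfl, rfl, hc⟩ := h
  have h0 := congrFun hc 0
  have h1 := congrFun hc 1
  simp only [dir, Matrix.mulVec, dotProduct, Fin.sum_univ_two, Matrix.cons_val_zero,
    Matrix.cons_val_one, Pi.smul_apply, smul_eq_mul] at h0 h1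
  have e1 := Real.cos_sq_add_sin_sq (Real.pi * s)
  have e2 := Real.cos_sq_add_sin_sq (Real.pi * t)
  unfold RelP
  rw [ee_coe, ee_coe]
  simp only [Algebra.algebraMap_self, RingHom.id_apply, map_add, map_mul, Complex.conj_ofReal,
    Complex.conj_I]
  generalize Real.cos (Real.pi * s) = u at *
  generalize Real.sin (Real.pi * s) = v at *
  generalize Real.cos (Real.pi * t) = u' at *
  generalize Real.sin (Real.pi * t) = v' at *
  generalize g.1 0 0 = p at *
  generalize g.1 0 1 = q at *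
  generalize g.1 1 0 = r at *
  generalize g.1 1 1 = w at *
  have h0' : (p : ℂ) * u + q * v = c * u' := by exact_mod_cast h0
  have h1' : (r : ℂ) * u + w * v = c * v' := by exact_mod_cast h1
  have e1' : (u : ℂ) ^ 2 + v ^ 2 = 1 := by exact_mod_cast e1
  have e2' : (u' : ℂ) ^ 2 + v' ^ 2 = 1 := by exact_mod_cast e2
  have hI : Complex.I ^ 2 = -1 := Complex.I_sq
  push_cast
  have k1 : (((p : ℂ) + w) / 2 + (r - q) / 2 * Complex.I) * (u + v * Complex.I) ^ 2 +
      ((p - w) / 2 + (r + q) / 2 * Complex.I) =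
      (u + v * Complex.I) * (c * (u' + v' * Complex.I)) := by
    linear_combination (u + v * Complex.I) * h0' + (u + v * Complex.I) * Complex.I * h1' -
      ((p - w) / 2 + (r + q) / 2 * Complex.I) * e1' +
      ((u + v * Complex.I) * (r - q) / 2 * v - (u + v * Complex.I) * (r + q) / 2 * v +
        v ^ 2 * ((p - w) / 2 + (r + q) / 2 * Complex.I)) * hI
  have k2 : (((p : ℂ) - w) / 2 + (r + q) / 2 * -Complex.I) * (u + v * Complex.I) ^ 2 +
      ((p + w) / 2 + (r - q) / 2 * -Complex.I) =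
      (u + v * Complex.I) * (c * (u' - v' * Complex.I)) := by
    linear_combination (u + v * Complex.I) * h0' - (u + v * Complex.I) * Complex.I * h1' -
      ((p + w) / 2 - (r - q) / 2 * Complex.I) * e1' +
      (-(u + v * Complex.I) * (r + q) / 2 * v + (u + v * Complex.I) * (r - q) / 2 * v +
        v ^ 2 * ((p + w) / 2 - (r - q) / 2 * Complex.I)) * hI
  rw [k1, k2]
  linear_combination (u + v * Complex.I) * c * (u' + v' * Complex.I) * e2' -
    (u + v * Complex.I) * c * (u' + v' * Complex.I) * v' ^ 2 * hI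

theorem tr_mem {k : ℕ} {f : UnitAddCircle ≃ₜ UnitAddCircle} (hf : f ∈ lifted k) :
    tr f ∈ liftGroup k := by
  obtain ⟨g, hg⟩ := hf
  refine ⟨(ee.symm.trans (f.trans ee)).continuous,
    (((g.1 0 0 + g.1 1 1) / 2 : ℝ) : ℂ) + (((g.1 1 0 - g.1 0 1) / 2 : ℝ) : ℂ) * Complex.I,
    (((g.1 0 0 - g.1 1 1) / 2 : ℝ) : ℂ) + (((g.1 1 0 + g.1 0 1) / 2 : ℝ) : ℂ) * Complex.I,
    ?_, fun z => ?_⟩
  · have hd := g.det_coe
    rw [Matrix.det_fin_two] at hd
    rw [Complex.normSq_add_mul_I, Complex.normSq_add_mul_I]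
    linear_combination hd
  · have := (hg (ee.symm z)).relP
    rw [ee_nsmul, ee_nsmul, Homeomorph.apply_symm_apply, Circle.coe_pow, Circle.coe_pow] at this
    exact this

theorem mem_rot_iff {f : UnitAddCircle ≃ₜ UnitAddCircle} :
    f ∈ rot ↔ ∃ c : Circle, ∀ z, tr f z = c * z := by
  constructor
  · rintro ⟨t, ht⟩
    exact ⟨ee t, fun z => by rw [tr_apply, ht, ee_add, Homeomorph.apply_symm_apply, mul_comm]⟩
  · rintro ⟨c, hc⟩
    refine ⟨ee.symm c, fun x => ee.injective ?_⟩
    have := hc (ee x)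
    rw [tr_apply, Homeomorph.symm_apply_apply] at this
    rw [this, ee_add, Homeomorph.apply_symm_apply, mul_comm]

/-- The natural homomorphism from the amalgamated product to the homeomorphism group. -/
noncomputable def nat (k l : ℕ) :
    Monoid.PushoutI (incl k l) →* (UnitAddCircle ≃ₜ UnitAddCircle) :=
  Monoid.PushoutI.lift (fun i : Bool => (lifted (cond i k l)).subtype) rot.subtype
    (fun _ => MonoidHom.ext fun _ => rfl)

theorem nat_injective (k l : ℕ) (hk : 0 < k) (hl : 0 < l) (hne : k ≠ l) :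
    Function.Injective (nat k l) := by
  classical
  rw [injective_iff_map_eq_one]
  intro g hg
  obtain ⟨d⟩ := Monoid.PushoutI.NormalWord.transversal_nonempty (incl k l)
    (fun i => Subgroup.inclusion_injective _)
  obtain ⟨w, rfl⟩ := (Monoid.PushoutI.NormalWord.equiv (d := d)).symm.surjective g
  change nat k l w.prod = 1 at hg
  change w.prod = 1
  set L : List (Bool × Equiv.Perm Circle) :=
    w.toList.map (fun p => (p.1, tr (p.2 : UnitAddCircle ≃ₜ UnitAddCircle))) with hL
  have hprod : tr (w.head : UnitAddCircle ≃ₜ UnitAddCircle) * (L.map Prod.snd).prod = 1 := by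
    rw [← map_one tr, ← hg]
    simp only [nat, Monoid.PushoutI.NormalWord.prod, map_mul, Monoid.PushoutI.lift_base,
      Monoid.CoprodI.Word.prod, map_list_prod, List.map_map, hL]
    congr 2
  by_cases hnil : w.toList = []
  · have h1 : w.head = 1 := by
      apply Subtype.ext
      have h2 : nat k l w.prod = (w.head : UnitAddCircle ≃ₜ UnitAddCircle) := by
        simp [nat, Monoid.PushoutI.NormalWord.prod, Monoid.CoprodI.Word.prod, hnil]
      rw [← h2, hg]
      rfl
    simp [Monoid.PushoutI.NormalWord.prod, Monoid.CoprodI.Word.prod, hnil, h1]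
  · exfalso
    obtain ⟨c, hc⟩ := mem_rot_iff.mp (w.head⁻¹).2
    refine word_ne_rot k l hk hl hne L (by simpa [hL] using hnil) ?_ ?_ c ?_
    · intro p hp
      obtain ⟨q, hq, rfl⟩ := List.mem_map.mp hp
      refine ⟨tr_mem q.2.2, fun hq' => ?_⟩
      have h1 : (q.2 : UnitAddCircle ≃ₜ UnitAddCircle) ∈ rot := mem_rot_iff.mpr hq'
      have h2 := w.normalized q.1 q.2 hq
      have h3 := w.ne_one q hq
      apply h3
      have h4 := (d.compl q.1).1 (a₁ := (⟨q.2, ⟨⟨_, h1⟩, rfl⟩⟩, ⟨1, d.one_mem q.1⟩))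
        (a₂ := (⟨1, one_mem _⟩, ⟨q.2, h2⟩)) (by simp)
      have h5 := congrArg (fun x => (x.1 : lifted (cond q.1 k l))) h4
      exact h5
    · rw [hL, List.isChain_map]
      exact w.chain_ne
    · intro z
      rw [← hc z, eq_inv_of_mul_eq_one_right hprod, ← map_inv]
      rfl

theorem nat_range (k l : ℕ) : (nat k l).range = lifted k ⊔ lifted l := by
  apply le_antisymm
  · rintro _ ⟨g, rfl⟩
    induction g using Monoid.PushoutI.induction_on with
    | of i g =>
      rw [nat, Monoid.PushoutI.lift_of]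
      cases i
      · exact Subgroup.mem_sup_right g.2
      · exact Subgroup.mem_sup_left g.2
    | base g =>
      rw [nat, Monoid.PushoutI.lift_base]
      exact Subgroup.mem_sup_left (rot_le_lifted k g.2)
    | mul x y hx hy => rw [map_mul]; exact mul_mem hx hy
  · refine sup_le (fun f hf => ?_) (fun f hf => ?_)
    · exact ⟨Monoid.PushoutI.of (φ := incl k l) true ⟨f, hf⟩, by
        rw [nat, Monoid.PushoutI.lift_of]; rfl⟩
    · exact ⟨Monoid.PushoutI.of (φ := incl k l) false ⟨f, hf⟩, by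
        rw [nat, Monoid.PushoutI.lift_of]; rfl⟩

theorem result (k l : ℕ) (hk : 1 ≤ k) (hl : 1 ≤ l) (hne : k ≠ l) :
    ∃ e : Monoid.PushoutI (incl k l) ≃* ↥(lifted k ⊔ lifted l),
      ∀ (i : Bool) (f : lifted (cond i k l)),
        ((e (Monoid.PushoutI.of (φ := incl k l) i f) : ↥(lifted k ⊔ lifted l)) :
          UnitAddCircle ≃ₜ UnitAddCircle) = (f : UnitAddCircle ≃ₜ UnitAddCircle) := by
  refine ⟨(MonoidHom.ofInjective (nat_injective k l hk hl hne)).trans
    (MulEquiv.subgroupCongr (nat_range k l)), fun i f => ?_⟩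
  change nat k l (Monoid.PushoutI.of (φ := incl k l) i f) = _
  rw [nat, Monoid.PushoutI.lift_of]
  rfl

end Pool.Agent.Results.MP_8b9c46_al.Amalgam
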